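import Pool.Agent.Helper2.EC_C.Goals

/-!
# MP_ecc237_nt, PART C, packet E2T: the transformation of `E2` on the imaginary axis
-/

set_option autoImplicit false

open MeasureTheory Filter Topology Set

namespace ECC.PkE2T

open EC237 ECC Complex EisensteinSeries ArithmeticFunction
open UpperHalfPlane hiding I
open scoped MatrixGroups sigma

/-- The Lambert series of `ν^k` is `Σ σ_k(n) q^n`. -/
theorem LS_sigma (k : ℕ) {q : ℝ} (hq : |q| < 1) :
    LS (fun _ ν => (ν : ℝ) ^ k) q = ∑' n : ℕ+, (ArithmeticFunction.sigma k n : ℝ) * q ^ (n : ℕ) := by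
  have hq' : ‖q‖ < 1 := by rwa [Real.norm_eq_abs]
  have h1 := tsum_prod_pow_eq_tsum_sigma (𝕜 := ℝ) k hq'
  rw [← h1, ← (summable_prod_mul_pow (𝕜 := ℝ) k hq').tsum_prod]
  rw [← (Equiv.prodCongr Equiv.pnatEquivNat.symm Equiv.pnatEquivNat.symm).tsum_eq]
  rfl

/-- The point `it`. -/
noncomputable def zt (t : ℝ) (ht : 0 < t) : ℍ := ⟨I * t, by simpa using ht⟩

theorem zt_coe (t : ℝ) (ht : 0 < t) : ((zt t ht : ℍ) : ℂ) = I * t := rfl

theorem q_lt (t : ℝ) (ht : 0 < t) : |Real.exp (-(2 * Real.pi * t))| < 1 := by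
  rw [abs_of_pos (Real.exp_pos _), Real.exp_lt_one_iff]
  have := Real.pi_pos
  nlinarith [mul_pos this ht]

theorem cexp_eq (t : ℝ) (ht : 0 < t) :
    Complex.exp (2 * Real.pi * I * (zt t ht : ℍ)) = (Real.exp (-(2 * Real.pi * t)) : ℂ) := by
  rw [zt_coe, Complex.ofReal_exp]
  congr 1
  push_cast
  linear_combination (2 * Real.pi * t : ℂ) * I_sq

theorem PS_eq (t : ℝ) (ht : 0 < t) :
    ((PS (Real.exp (-(2 * Real.pi * t))) : ℝ) : ℂ) = E2 (zt t ht) := by
  rw [E2_eq_tsum_cexp, cexp_eq, PS, GS]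
  have h := LS_sigma 1 (q_lt t ht)
  simp only [pow_one] at h
  rw [h]
  push_cast
  rfl

theorem S_zt (t : ℝ) (ht : 0 < t) :
    ModularGroup.S • zt t ht = zt (1 / t) (by positivity) := by
  rw [modular_S_smul]
  apply UpperHalfPlane.ext
  show (-(I * (t:ℂ)))⁻¹ = I * ((1 / t : ℝ) : ℂ)
  have h : (t : ℂ) ≠ 0 := by exact_mod_cast ht.ne'
  have hI : (I : ℂ) ≠ 0 := I_ne_zero
  push_cast
  field_simp
  rw [I_sq]

theorem e2t : G_E2T := by
  intro t ht
  have h1 := G2_S_transform (zt t ht)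
  rw [S_zt, zt_coe] at h1
  have ht' : (0:ℝ) < 1 / t := by positivity
  have h2 : Real.exp (-(2 * Real.pi / t)) = Real.exp (-(2 * Real.pi * (1 / t))) := by
    congr 1; ring
  rw [h2]
  have h3 : ((PS (Real.exp (-(2 * Real.pi * (1 / t)))) : ℝ) : ℂ) =
      ((-(t ^ 2) * PS (Real.exp (-(2 * Real.pi * t))) + 6 * t / Real.pi : ℝ) : ℂ) := by
    push_cast
    rw [PS_eq t ht, PS_eq (1 / t) ht']
    simp only [E2, Pi.smul_apply, smul_eq_mul]
    rw [riemannZeta_two, h1]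
    have h : (t : ℂ) ≠ 0 := by exact_mod_cast ht.ne'
    have hpi : (Real.pi : ℂ) ≠ 0 := by exact_mod_cast Real.pi_pos.ne'
    have hI : (I : ℂ) ≠ 0 := I_ne_zero
    field_simp
    rw [I_sq]
    ring
  exact_mod_cast h3

end ECC.PkE2T
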